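import Pool.Agent.L7h4.DC.Main

/-!
# A matroid whose dual Chow polynomial has a non-real zero

We construct a matroid of rank five whose dual Chow polynomial
`γ₀ (1 + x)^4 + γ₁ x (1 + x)^2 + γ₂ x^2` satisfies `γ₁² < 4 γ₀ γ₂`, so that it has no real zero.

The matroid. Let `F` be the field with `17` elements, `L` its extension of degree four, `θ` a basis of
`L` over `F`. The elements are the vectors of `U = F^4 × L` and one free point for each element of
`L`. The matroid on `U` is the linear one over `F`, made generic so that `0 × L` has rank one
(principal truncation). The free points are in general position, except that the graph of a linear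
map `A : F^4 → L` (a flat of rank four, a projective space of dimension three over `F`) contains the
free point `∑ θ i * A (e i)`. The whole matroid is truncated to rank five. Most chains of flats run
inside the graphs and are thick, the chains through a line and two free points are thin; this mixture
violates `γ₁² ≥ 4 γ₀ γ₂`.

The dual Chow polynomial is computed from a linear system over the principal up-sets of the lattice
of flats (`Pool.Agent.L7h4.DC.chain_formula`) and from the numbers of flats of each type above a given
flat (`Pool.Agent.L7h4.DC.card_Ab`).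
-/

namespace Pool.Agent.Results.MP_1a95b2_co.NotRealRooted

open Polynomial

/-- The flats of a matroid, ordered by inclusion. -/
abbrev Flat {α : Type} (M : Matroid α) : Type := {F : Set α // M.IsFlat F}

/-- The smallest flat, the closure of the empty set. -/
def bot {α : Type} (M : Matroid α) : Flat M := ⟨M.closure ∅, M.isFlat_closure ∅⟩

/-- The difference of the ranks of two flats. -/
noncomputable def rho {α : Type} (M : Matroid α) (F G : Flat M) : ℕ :=
  (M.eRk G.1).toNat - (M.eRk F.1).toNat

open Classical in
/-- The Möbius function of the lattice of flats. -/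
noncomputable def moebius {α : Type} [Finite α] (M : Matroid α) (F G : Flat M) : ℤ :=
  letI : Fintype (Flat M) := Fintype.ofFinite _
  letI : LocallyFiniteOrder (Flat M) := Fintype.toLocallyFiniteOrder
  IncidenceAlgebra.mu ℤ F G

/-- The polynomial `(x^d - x) / (x - 1) = x + x^2 + ... + x^(d-1)`. -/
noncomputable def step (d : ℕ) : ℤ[X] := ∑ j ∈ Finset.Ico 1 d, X ^ j

open Classical in
/-- The dual Chow polynomial: `(-1)^r` times the sum over all chains `c 0 < c 1 < ... < c m` of flats
with `c m` the ground set of `μ(0, c 0) ∏ μ(c i, c (i+1)) (x^ρ - x) / (x - 1)`, where `ρ` is the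
difference of the ranks of `c i` and `c (i+1)`. -/
noncomputable def dualChow {α : Type} [Finite α] (M : Matroid α) : ℤ[X] :=
  letI : Fintype (Flat M) := Fintype.ofFinite _
  (-1) ^ (M.eRk M.E).toNat *
    ∑ m ∈ Finset.range (Fintype.card (Flat M)),
      ∑ c ∈ (Finset.univ : Finset (Fin (m + 1) → Flat M)).filter
          (fun c => StrictMono c ∧ (c (Fin.last m)).1 = M.E),
        C (moebius M (bot M) (c 0)) *
          ∏ i : Fin m, (C (moebius M (c i.castSucc) (c i.succ)) *
            step (rho M (c i.castSucc) (c i.succ)))

open Pool.Agent.L7h4.DC Module Submodule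

instance : Fact (Nat.Prime 17) := ⟨by norm_num⟩

/-- the small field -/
abbrev F17 : Type := ZMod 17

/-- the large field -/
abbrev L17 : Type := GaloisField 17 4

lemma fr : finrank F17 L17 = 4 := GaloisField.finrank 17 (by norm_num)

/-- a basis of the large field -/
noncomputable def th : Basis (Fin 4) F17 L17 := finBasisOfFinrankEq F17 L17 fr

lemma hyp : Hyp (WW F17 L17) (cls F17 (th : Fin 4 → L17)) where
  hU := by
    rw [finrank_prod, fr]
    simp
  hW := by
    have h := LinearMap.finrank_range_add_finrank_ker (LinearMap.fst F17 (Fin 4 → F17) L17)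
    have h2 : LinearMap.range (LinearMap.fst F17 (Fin 4 → F17) L17) = ⊤ :=
      LinearMap.range_eq_top.2 LinearMap.fst_surjective
    rw [h2, finrank_top, finrank_prod, fr] at h
    unfold WW
    simp at h
    omega
  ext := fun Γ h h3 e => ext_unique th th.linearIndependent Γ h h3 e

/-- the matroid -/
noncomputable abbrev M17 : Matroid (((Fin 4 → F17) × L17) ⊕ L17) := mat hyp

lemma dualChow_M17 : dualChow M17 = (-1) ^ (M17.eRk M17.E).toNat * toPoly (Hl (0, 0, 0)) := by
  classical
  let i1 : Fintype (Flat M17) := Fintype.ofFinite _
  let i2 : LocallyFiniteOrder (Flat M17) := Fintype.toLocallyFiniteOrder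
  have h := chain_value hyp (ZMod.card 17)
    (by rw [GaloisField.card 17 4 (by norm_num)]; norm_num)
    (bot M17) ⟨M17.E, M17.ground_isFlat⟩ rfl rfl
  rw [← h]
  unfold dualChow
  congr 1
  refine Finset.sum_congr ?_ fun m _ => ?_
  · congr 1
  · unfold chainSum
    refine Finset.sum_congr ?_ fun c _ => rfl
    refine Finset.filter_congr fun c _ => ?_
    constructor
    · rintro ⟨h1, h2⟩
      exact ⟨h1, Subtype.ext h2⟩
    · rintro ⟨h1, h2⟩
      exact ⟨h1, congrArg Subtype.val h2⟩

lemma rank_M17 : M17.eRank = 5 := by
  obtain ⟨I, hI, h5⟩ := exists_D hyp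
  have hI' : M17.Indep I := hI
  apply le_antisymm
  · unfold M17
    rw [Matroid.eRank_def, Matroid.eRk_le_iff]
    intro J _ hJ
    have h1 : Ind _ _ J := hJ
    have h2 := h1.2.2.1
    rw [← ncard_split] at h2
    rw [← Set.Finite.cast_ncard_eq (Set.toFinite J)]
    exact_mod_cast h2
  · have h1 := hI'.encard_le_eRank
    rw [← Set.Finite.cast_ncard_eq (Set.toFinite I), ncard_split, h5] at h1
    exact_mod_cast h1

/-- There is a matroid of rank five on a finite set whose dual Chow polynomial has a non-real zero
and no real zero. -/
theorem result : ∃ (α : Type) (_ : Finite α) (M : Matroid α), M.E = Set.univ ∧ M.eRank = 5 ∧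
    (∃ z : ℂ, z.im ≠ 0 ∧ aeval z (dualChow M) = 0) ∧ ∀ x : ℝ, aeval x (dualChow M) ≠ 0 := by
  refine ⟨_, inferInstance, M17, rfl, rank_M17, ?_⟩
  have hr : (M17.eRk M17.E).toNat = 5 := by
    rw [← Matroid.eRank_def, rank_M17]
    rfl
  have hp : dualChow M17 = C 1284824609375772999899555220 + C 5786425564117141293375977672 * X +
      C 9088146611582603648930892293 * X ^ 2 + C 5786425564117141293375977672 * X ^ 3 +
      C 1284824609375772999899555220 * X ^ 4 := by
    rw [dualChow_M17, hr]
    have h0 : Hl (0, 0, 0) = [-1284824609375772999899555220, -5786425564117141293375977672,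
      -9088146611582603648930892293, -5786425564117141293375977672,
      -1284824609375772999899555220] := by decide
    rw [h0]
    simp only [toPoly, map_neg]
    ring
  have hreal : ∀ x : ℝ, aeval x (dualChow M17) ≠ 0 := by
    intro x
    rw [hp]
    simp only [map_add, map_mul, aeval_C, aeval_X, map_pow]
    simp only [algebraMap_int_eq, eq_intCast, Int.cast_ofNat]
    intro h0
    have h1 : (2 * 1284824609375772999899555220 * (1 + x) ^ 2 +
        647127126614049293777756792 * x) ^ 2 +
        17782656776256623779742980629102619636260921227151056 * x ^ 2 = 0 := by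
      linear_combination (4 * 1284824609375772999899555220) * h0
    have h2 : x = 0 := by
      by_contra hx
      have : 0 < x ^ 2 := by positivity
      nlinarith [sq_nonneg (2 * 1284824609375772999899555220 * (1 + x) ^ 2 +
        647127126614049293777756792 * x)]
    rw [h2] at h1
    norm_num at h1
  refine ⟨?_, hreal⟩
  have hdeg : 0 < ((dualChow M17).map (Int.castRingHom ℂ)).degree := by
    have h4 : ((dualChow M17).map (Int.castRingHom ℂ)).coeff 4 =
        1284824609375772999899555220 := by
      rw [coeff_map, hp]
      simp [coeff_X]
    have h5 : 4 ≤ ((dualChow M17).map (Int.castRingHom ℂ)).natDegree :=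
      le_natDegree_of_ne_zero (by rw [h4]; norm_num)
    exact natDegree_pos_iff_degree_pos.1 (by omega)
  obtain ⟨z, hz⟩ := Complex.exists_root hdeg
  have hz' : aeval z (dualChow M17) = 0 := by
    rw [IsRoot.def, eval_map] at hz
    exact hz
  refine ⟨z, ?_, hz'⟩
  intro him
  apply hreal z.re
  have hzr : z = (z.re : ℂ) := by
    apply Complex.ext
    · simp
    · simp [him]
  rw [hzr] at hz'
  have h6 : ((aeval z.re (dualChow M17) : ℝ) : ℂ) = 0 := by
    rw [← hz']
    have := aeval_algebraMap_apply ℂ z.re (dualChow M17)
    simpa using this.symm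
  exact_mod_cast h6

end Pool.Agent.Results.MP_1a95b2_co.NotRealRooted
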